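import Pool.Agent.H589R2.OV.Pow

/-!
# Row-separable approximators for monotone circuits on Orthogonal Vectors
-/

open Finset

namespace Pool.Agent.H589R2.OV

variable {n d : ℕ}

/-- A row-separable approximator: either constantly true or a disjunction of events of one row. -/
structure Ap (n d : ℕ) where
  /-- constantly true -/
  top : Prop
  /-- the event of each row -/
  g : Fin n ⊕ Fin n → (Fin d → Bool) → Prop

/-- The all-false row. -/
def bot : Fin d → Bool := fun _ => false

/-- The truth value of an approximator. -/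
def Ap.val (a : Ap n d) (x : Fin n ⊕ Fin n → Fin d → Bool) : Prop := a.top ∨ ∃ s, a.g s (x s)

/-- The row events are monotone and exclude the all-false row. -/
def Ap.WF (a : Ap n d) : Prop :=
  ∀ s, (∀ y z : Fin d → Bool, y ≤ z → a.g s y → a.g s z) ∧ ¬ a.g s bot

/-- The positive instance with orthogonal pair `(i, j)` and vector `S`, in complemented bits. -/
def posX (ω : Fin n × Fin n × (Fin d → Bool)) : Fin n ⊕ Fin n → Fin d → Bool
  | Sum.inl i => if i = ω.1 then ω.2.2 else bot
  | Sum.inr j => if j = ω.2.1 then (fun k => !(ω.2.2 k)) else bot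

/-- The weights of the positive instances. -/
noncomputable def posW (ω : Fin n × Fin n × (Fin d → Bool)) : ℝ :=
  (1 / (n : ℝ)) * ((1 / (n : ℝ)) * piW (bw (1 / 2)) ω.2.2)

theorem posW_nonneg (ω : Fin n × Fin n × (Fin d → Bool)) : 0 ≤ posW ω := by
  unfold posW
  have := piW_nonneg (bw_nonneg (p := 1 / 2) (by norm_num) (by norm_num)) ω.2.2
  positivity

theorem pr_posW (E : Fin n × Fin n × (Fin d → Bool) → Prop) :
    pr posW E = ∑ i : Fin n, ∑ j : Fin n,
      (1 / (n : ℝ)) * ((1 / (n : ℝ)) * mu (1 / 2) (fun S => E (i, j, S))) := by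
  classical
  unfold pr
  rw [Fintype.sum_prod_type]
  refine Finset.sum_congr rfl (fun i _ => ?_)
  rw [Fintype.sum_prod_type]
  refine Finset.sum_congr rfl (fun j _ => ?_)
  unfold posW mu pr
  rw [Finset.mul_sum, Finset.mul_sum]
  refine Finset.sum_congr rfl (fun S _ => ?_)
  by_cases h : E (i, j, S)
  · simp [h]
  · simp [h]

theorem half_nonneg : (0 : ℝ) ≤ 1 / 2 := by norm_num
theorem half_le_one : (1 / 2 : ℝ) ≤ 1 := by norm_num

theorem pos_avg (hn : 0 < n) {E : Fin n × Fin n × (Fin d → Bool) → Prop} {δ : ℝ}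
    (h : ∀ i j, mu (1 / 2) (fun S => E (i, j, S)) ≤ δ) : pr posW E ≤ δ := by
  rw [pr_posW]
  have hn' : (0 : ℝ) < n := by exact_mod_cast hn
  calc ∑ i : Fin n, ∑ j : Fin n,
      (1 / (n : ℝ)) * ((1 / (n : ℝ)) * mu (1 / 2) (fun S => E (i, j, S)))
      ≤ ∑ i : Fin n, ∑ j : Fin n, (1 / (n : ℝ)) * ((1 / (n : ℝ)) * δ) := by
        refine Finset.sum_le_sum (fun i _ => Finset.sum_le_sum (fun j _ => ?_))
        have h2 : (0 : ℝ) ≤ 1 / (n : ℝ) := by positivity
        exact mul_le_mul_of_nonneg_left (mul_le_mul_of_nonneg_left (h i j) h2) h2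
    _ = δ := by
        simp only [Finset.sum_const, Finset.card_univ, Fintype.card_fin, nsmul_eq_mul]
        field_simp

theorem sum_posW (hn : 0 < n) : ∑ ω : Fin n × Fin n × (Fin d → Bool), posW ω = 1 := by
  have hn' : (0 : ℝ) < n := by exact_mod_cast hn
  rw [← pr_true, pr_posW]
  have : ∀ i j : Fin n, mu (1 / 2) (fun _ : Fin d → Bool => True) = 1 := by
    intro i j
    unfold mu
    rw [pr_true, sum_piW (bw_sum _)]
  simp only [Finset.sum_const, Finset.card_univ, Fintype.card_fin, nsmul_eq_mul]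
  have h1 : mu (1 / 2) (fun _ : Fin d → Bool => True) = 1 := this ⟨0, hn⟩ ⟨0, hn⟩
  rw [h1]
  field_simp

theorem pos_point (hn : 0 < n) {E : Fin n × Fin n × (Fin d → Bool) → Prop} (i₀ j₀ : Fin n)
    (h : ∀ ω, E ω → ω.1 = i₀ ∧ ω.2.1 = j₀) : pr posW E ≤ 1 / (n : ℝ) ^ 2 := by
  have hn' : (0 : ℝ) < n := by exact_mod_cast hn
  rw [pr_posW]
  have hz : ∀ i j : Fin n, ¬ (i = i₀ ∧ j = j₀) → mu (1 / 2) (fun S => E (i, j, S)) = 0 := by
    intro i j hij
    have : mu (1 / 2) (fun S => E (i, j, S)) = mu (1 / 2) (fun _ : Fin d → Bool => False) :=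
      pr_congr (fun S => ⟨fun hE => hij (h _ hE), fun hf => hf.elim⟩)
    rw [this]
    exact pr_false _
  rw [Finset.sum_eq_single i₀, Finset.sum_eq_single j₀]
  · have h1 : mu (1 / 2) (fun S => E (i₀, j₀, S)) ≤ 1 := mu_le_one half_nonneg half_le_one _
    calc (1 / (n : ℝ)) * ((1 / (n : ℝ)) * mu (1 / 2) (fun S => E (i₀, j₀, S)))
        ≤ (1 / (n : ℝ)) * ((1 / (n : ℝ)) * 1) := by gcongr
      _ = 1 / (n : ℝ) ^ 2 := by ring
  · intro j _ hj
    rw [hz i₀ j (fun hh => hj hh.2)]
    simp
  · intro hh; exact absurd (Finset.mem_univ _) hh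
  · intro i _ hi
    refine Finset.sum_eq_zero (fun j _ => ?_)
    rw [hz i j (fun hh => hi hh.1)]
    simp
  · intro hh; exact absurd (Finset.mem_univ _) hh

theorem pos_row (hn : 0 < n) (s : Fin n ⊕ Fin n) :
    pr posW (fun ω : Fin n × Fin n × (Fin d → Bool) => posX ω s ≠ bot) ≤ 1 / (n : ℝ) := by
  classical
  have hn' : (0 : ℝ) < n := by exact_mod_cast hn
  have hbound : ∀ i j, (1 / (n : ℝ)) * ((1 / (n : ℝ)) *
      mu (1 / 2) (fun S : Fin d → Bool => posX (i, j, S) s ≠ bot)) ≤
      (match s with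
        | Sum.inl i₀ => if i = i₀ then (1 / (n : ℝ)) * (1 / (n : ℝ)) else 0
        | Sum.inr j₀ => if j = j₀ then (1 / (n : ℝ)) * (1 / (n : ℝ)) else 0) := by
    intro i j
    have h1 : mu (1 / 2) (fun S : Fin d → Bool => posX (i, j, S) s ≠ bot) ≤ 1 :=
      mu_le_one half_nonneg half_le_one _
    cases s with
    | inl i₀ =>
      simp only
      by_cases hi : i = i₀
      · rw [if_pos hi]
        calc (1 / (n : ℝ)) * ((1 / (n : ℝ)) *
              mu (1 / 2) (fun S : Fin d → Bool => posX (i, j, S) (Sum.inl i₀) ≠ bot))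
            ≤ (1 / (n : ℝ)) * ((1 / (n : ℝ)) * 1) := by gcongr
          _ = _ := by ring
      · rw [if_neg hi]
        have : mu (1 / 2) (fun S : Fin d → Bool => posX (i, j, S) (Sum.inl i₀) ≠ bot)
            = mu (1 / 2) (fun _ : Fin d → Bool => False) := by
          refine pr_congr (fun S => ⟨fun hE => hE ?_, fun hf => hf.elim⟩)
          simp only [posX]
          rw [if_neg (fun hh => hi hh.symm)]
        rw [this]
        simp [mu, pr_false]
    | inr j₀ =>
      simp only
      by_cases hj : j = j₀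
      · rw [if_pos hj]
        calc (1 / (n : ℝ)) * ((1 / (n : ℝ)) *
              mu (1 / 2) (fun S : Fin d → Bool => posX (i, j, S) (Sum.inr j₀) ≠ bot))
            ≤ (1 / (n : ℝ)) * ((1 / (n : ℝ)) * 1) := by gcongr
          _ = _ := by ring
      · rw [if_neg hj]
        have : mu (1 / 2) (fun S : Fin d → Bool => posX (i, j, S) (Sum.inr j₀) ≠ bot)
            = mu (1 / 2) (fun _ : Fin d → Bool => False) := by
          refine pr_congr (fun S => ⟨fun hE => hE ?_, fun hf => hf.elim⟩)
          simp only [posX]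
          rw [if_neg (fun hh => hj hh.symm)]
        rw [this]
        simp [mu, pr_false]
  rw [pr_posW]
  refine (Finset.sum_le_sum (fun i _ => Finset.sum_le_sum (fun j _ => hbound i j))).trans ?_
  cases s with
  | inl i₀ =>
    simp only
    rw [Finset.sum_eq_single i₀]
    · simp only [if_true, Finset.sum_const, Finset.card_univ, Fintype.card_fin, nsmul_eq_mul]
      apply le_of_eq
      field_simp
    · intro i _ hi
      simp [hi]
    · intro hh; exact absurd (Finset.mem_univ _) hh
  | inr j₀ =>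
    simp only
    have hsum : ∑ j : Fin n, (if j = j₀ then (1 / (n : ℝ)) * (1 / (n : ℝ)) else 0)
        = (1 / (n : ℝ)) * (1 / (n : ℝ)) := by
      rw [Finset.sum_ite_eq' Finset.univ j₀]
      simp
    rw [Finset.sum_const, hsum, Finset.card_univ, Fintype.card_fin, nsmul_eq_mul]
    apply le_of_eq
    field_simp

theorem pos_cross (hn : 0 < n) {s s' : Fin n ⊕ Fin n} (hs : s ≠ s') :
    pr posW (fun ω : Fin n × Fin n × (Fin d → Bool) => posX ω s ≠ bot ∧ posX ω s' ≠ bot)
      ≤ 1 / (n : ℝ) ^ 2 := by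
  have hn' : (0 : ℝ) < n := by exact_mod_cast hn
  cases s with
  | inl i =>
    cases s' with
    | inl i' =>
      refine (pr_mono posW_nonneg (F := fun _ => False) ?_).trans ?_
      · rintro ω ⟨h1, h2⟩
        apply hs
        simp only [posX] at h1 h2
        have e1 : i = ω.1 := by
          by_contra hc; exact h1 (if_neg hc)
        have e2 : i' = ω.1 := by
          by_contra hc; exact h2 (if_neg hc)
        rw [e1, e2]
      · rw [pr_false]; positivity
    | inr j' =>
      apply pos_point hn i j'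
      rintro ω ⟨h1, h2⟩
      simp only [posX] at h1 h2
      constructor
      · by_contra hc; exact h1 (if_neg (fun hh => hc hh.symm))
      · by_contra hc; exact h2 (if_neg (fun hh => hc hh.symm))
  | inr j =>
    cases s' with
    | inl i' =>
      apply pos_point hn i' j
      rintro ω ⟨h1, h2⟩
      simp only [posX] at h1 h2
      constructor
      · by_contra hc; exact h2 (if_neg (fun hh => hc hh.symm))
      · by_contra hc; exact h1 (if_neg (fun hh => hc hh.symm))
    | inr j' =>
      refine (pr_mono posW_nonneg (F := fun _ => False) ?_).trans ?_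
      · rintro ω ⟨h1, h2⟩
        apply hs
        simp only [posX] at h1 h2
        have e1 : j = ω.2.1 := by
          by_contra hc; exact h1 (if_neg hc)
        have e2 : j' = ω.2.1 := by
          by_contra hc; exact h2 (if_neg hc)
        rw [e1, e2]
      · rw [pr_false]; positivity

theorem mu_compl (G : (Fin d → Bool) → Prop) :
    mu (1 / 2) (fun S => G (fun k => !(S k))) = mu (1 / 2) G := by
  classical
  unfold mu pr
  have hinv : Function.Involutive (fun (S : Fin d → Bool) (k : Fin d) => !(S k)) := by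
    intro S; funext k; simp
  rw [← (Equiv.sum_comp (Function.Involutive.toPerm _ hinv)
    (fun x => piW (bw (1 / 2)) x * (if G x then (1 : ℝ) else 0)))]
  refine Finset.sum_congr rfl (fun S _ => ?_)
  have : piW (bw (1 / 2)) ((Function.Involutive.toPerm _ hinv) S) = piW (bw (1 / 2)) S := by
    unfold piW
    refine Finset.prod_congr rfl (fun k _ => ?_)
    change bw (1 / 2) (!(S k)) = bw (1 / 2) (S k)
    cases S k <;> norm_num [bw]
  rw [this]
  rfl

/-- The negative weights. -/
noncomputable def negW (p : ℝ) (x : Fin n ⊕ Fin n → Fin d → Bool) : ℝ := piW (piW (bw p)) x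

theorem negW_nonneg {p : ℝ} (h0 : 0 ≤ p) (h1 : p ≤ 1) (x : Fin n ⊕ Fin n → Fin d → Bool) :
    0 ≤ negW p x := piW_nonneg (piW_nonneg (bw_nonneg h0 h1)) x

theorem sum_negW (p : ℝ) : ∑ x : Fin n ⊕ Fin n → Fin d → Bool, negW p x = 1 :=
  sum_piW (sum_piW (bw_sum p))

/-- Parameters. -/
structure Par (n : ℕ) (p τ : ℝ) (m : ℕ) : Prop where
  hn : 0 < n
  hp0 : 0 ≤ p
  hp1 : p ≤ 1
  hp : 1 / 2 ≤ p ^ (m + 1)
  hτ0 : 0 ≤ τ
  hτ1 : τ ≤ 1
  hτ : τ ^ (m + 1) ≤ 1 / (n : ℝ) ^ 2

theorem trim {p τ : ℝ} {m : ℕ} (P : Par n p τ m) (P0 : ℕ) (a : Ap n d) (ha : a.WF) :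
    ∃ a' : Ap n d, a'.WF ∧
      (a'.top ∨ (¬ a'.top ∧ ∃ S : Finset (Fin n ⊕ Fin n), S.card ≤ P0 ∧
        ∀ s, s ∉ S → ∀ y, ¬ a'.g s y)) ∧
      pr posW (fun ω => a.val (posX ω) ∧ ¬ a'.val (posX ω)) ≤ 2 / (n : ℝ) ^ 2 ∧
      pr (negW p) (fun x => a'.val x ∧ ¬ a.val x) ≤ (1 - τ) ^ P0 := by
  classical
  have hn' : (0 : ℝ) < n := by exact_mod_cast P.hn
  have hτ1 : 0 ≤ 1 - τ := by linarith [P.hτ1]
  by_cases htop : a.top
  · refine ⟨a, ha, Or.inl htop, ?_, ?_⟩
    · refine (pr_mono posW_nonneg (F := fun _ => False) (fun ω h => h.2 h.1)).trans ?_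
      rw [pr_false]; positivity
    · refine (pr_mono (negW_nonneg P.hp0 P.hp1) (F := fun _ => False) (fun ω h => h.2 h.1)).trans ?_
      rw [pr_false]; positivity
  · set S : Finset (Fin n ⊕ Fin n) := Finset.univ.filter (fun s => τ ≤ mu p (a.g s)) with hS
    by_cases hcard : S.card ≤ P0
    · refine ⟨⟨False, fun s y => s ∈ S ∧ a.g s y⟩, ?_, ?_, ?_, ?_⟩
      · intro s
        exact ⟨fun y z hyz hy => ⟨hy.1, (ha s).1 y z hyz hy.2⟩, fun h => (ha s).2 h.2⟩
      · exact Or.inr ⟨id, S, hcard, fun s hs y h => hs h.1⟩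
      · refine pos_avg P.hn (fun i j => ?_)
        have hsmall : ∀ s, s ∉ S → mu (1 / 2) (a.g s) ≤ 1 / (n : ℝ) ^ 2 := by
          intro s hs
          have hlt : mu p (a.g s) < τ := by
            by_contra hc
            exact hs (Finset.mem_filter.2 ⟨Finset.mem_univ _, not_lt.1 hc⟩)
          have h1 := mu_pow P.hp0 P.hp1 half_nonneg P.hp (a.g s) (ha s).1
          refine h1.trans (le_trans ?_ P.hτ)
          exact pow_le_pow_left₀ (mu_nonneg P.hp0 P.hp1 _) hlt.le _
        have hA : mu (1 / 2) (fun S' : Fin d → Bool => Sum.inl i ∉ S ∧ a.g (Sum.inl i) S')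
            ≤ 1 / (n : ℝ) ^ 2 := by
          by_cases hi : (Sum.inl i : Fin n ⊕ Fin n) ∈ S
          · refine (mu_mono half_nonneg half_le_one (H := fun _ => False)
              (fun y h => h.1 hi)).trans ?_
            rw [mu, pr_false]; positivity
          · exact (mu_mono half_nonneg half_le_one (fun y h => h.2)).trans (hsmall _ hi)
        have hB : mu (1 / 2) (fun S' : Fin d → Bool => Sum.inr j ∉ S ∧
            a.g (Sum.inr j) (fun k => !(S' k))) ≤ 1 / (n : ℝ) ^ 2 := by
          by_cases hj : (Sum.inr j : Fin n ⊕ Fin n) ∈ S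
          · refine (mu_mono half_nonneg half_le_one (H := fun _ => False)
              (fun y h => h.1 hj)).trans ?_
            rw [mu, pr_false]; positivity
          · refine (mu_mono half_nonneg half_le_one (fun y h => h.2)).trans ?_
            rw [mu_compl]
            exact hsmall _ hj
        have hor : mu (1 / 2) (fun S' : Fin d → Bool =>
            (Sum.inl i ∉ S ∧ a.g (Sum.inl i) S') ∨
            (Sum.inr j ∉ S ∧ a.g (Sum.inr j) (fun k => !(S' k)))) ≤ 2 / (n : ℝ) ^ 2 := by
          refine (pr_or (piW_nonneg (bw_nonneg half_nonneg half_le_one)) _ _).trans ?_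
          have : (2 : ℝ) / (n : ℝ) ^ 2 = 1 / (n : ℝ) ^ 2 + 1 / (n : ℝ) ^ 2 := by ring
          rw [this]
          exact add_le_add hA hB
        refine le_trans (mu_mono half_nonneg half_le_one ?_) hor
        rintro S' ⟨h1, h2⟩
        rcases h1 with h1 | ⟨s, hs⟩
        · exact absurd h1 htop
        · have hsS : s ∉ S := by
            intro hc
            exact h2 (Or.inr ⟨s, hc, hs⟩)
          cases s with
          | inl i' =>
            simp only [posX] at hs
            by_cases hi : i' = i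
            · rw [if_pos hi] at hs
              subst hi
              exact Or.inl ⟨hsS, hs⟩
            · rw [if_neg hi] at hs
              exact absurd hs (ha _).2
          | inr j' =>
            simp only [posX] at hs
            by_cases hj : j' = j
            · rw [if_pos hj] at hs
              subst hj
              exact Or.inr ⟨hsS, hs⟩
            · rw [if_neg hj] at hs
              exact absurd hs (ha _).2
      · refine (pr_mono (negW_nonneg P.hp0 P.hp1) (F := fun _ => False) ?_).trans ?_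
        · rintro x ⟨h1, h2⟩
          rcases h1 with h1 | ⟨s, hs⟩
          · exact h1
          · exact h2 (Or.inr ⟨s, hs.2⟩)
        · rw [pr_false]; positivity
    · refine ⟨⟨True, fun _ _ => False⟩, ?_, Or.inl trivial, ?_, ?_⟩
      · intro s
        exact ⟨fun y z _ h => h, fun h => h⟩
      · refine (pr_mono posW_nonneg (F := fun _ => False) (fun ω h => h.2 (Or.inl trivial))).trans ?_
        rw [pr_false]; positivity
      · have h1 : pr (negW p) (fun x : Fin n ⊕ Fin n → Fin d → Bool =>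
            ∀ s, s ∈ S → ¬ a.g s (x s)) ≤ (1 - τ) ^ S.card := by
          have h2 := pr_pi (ι := Fin n ⊕ Fin n) (piW (bw p))
            (fun s (y : Fin d → Bool) => s ∈ S → ¬ a.g s y)
          have h3 : pr (negW p) (fun x : Fin n ⊕ Fin n → Fin d → Bool =>
            ∀ s, s ∈ S → ¬ a.g s (x s)) = ∏ s, pr (piW (bw p))
              (fun y : Fin d → Bool => s ∈ S → ¬ a.g s y) := h2
          rw [h3]
          have h4 : ∀ s, pr (piW (bw p)) (fun y : Fin d → Bool => s ∈ S → ¬ a.g s y)
              ≤ if s ∈ S then 1 - τ else 1 := by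
            intro s
            by_cases hs : s ∈ S
            · rw [if_pos hs]
              have h5 : pr (piW (bw p)) (fun y : Fin d → Bool => s ∈ S → ¬ a.g s y)
                  = pr (piW (bw p)) (fun y : Fin d → Bool => ¬ a.g s y) :=
                pr_congr (fun y => ⟨fun h => h hs, fun h _ => h⟩)
              rw [h5, pr_compl (sum_piW (bw_sum p))]
              have := (Finset.mem_filter.1 hs).2
              unfold mu at this
              linarith
            · rw [if_neg hs]
              exact pr_le_one (piW_nonneg (bw_nonneg P.hp0 P.hp1)) (sum_piW (bw_sum p)) _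
          refine (Finset.prod_le_prod (fun s _ =>
            pr_nonneg (piW_nonneg (bw_nonneg P.hp0 P.hp1)) _) (fun s _ => h4 s)).trans ?_
          rw [Finset.prod_ite_mem]
          simp
        refine (pr_mono (negW_nonneg P.hp0 P.hp1) (F := fun x : Fin n ⊕ Fin n → Fin d → Bool =>
            ∀ s, s ∈ S → ¬ a.g s (x s)) ?_).trans (h1.trans ?_)
        · rintro x ⟨_, h2⟩ s _ hg
          exact h2 (Or.inr ⟨s, hg⟩)
        · exact pow_le_pow_of_le_one hτ1 (by linarith [P.hτ0]) (not_le.1 hcard).le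

theorem and_step {p τ : ℝ} {m : ℕ} (P : Par n p τ m) (P0 : ℕ) (a b : Ap n d) (ha : a.WF)
    (hb : b.WF) :
    ∃ c : Ap n d, c.WF ∧
      pr posW (fun ω => (a.val (posX ω) ∧ b.val (posX ω)) ∧ ¬ c.val (posX ω))
        ≤ (4 + (P0 : ℝ) ^ 2) / (n : ℝ) ^ 2 ∧
      pr (negW p) (fun x => c.val x ∧ ¬ (a.val x ∧ b.val x)) ≤ 2 * (1 - τ) ^ P0 := by
  classical
  have hn' : (0 : ℝ) < n := by exact_mod_cast P.hn
  obtain ⟨a', ha', hat, hap, han⟩ := trim P P0 a ha
  obtain ⟨b', hb', hbt, hbp, hbn⟩ := trim P P0 b hb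
  have hsq : 0 ≤ (P0 : ℝ) ^ 2 / (n : ℝ) ^ 2 := by positivity
  have key : ∀ c : Ap n d, (∀ x, c.val x → a'.val x ∧ b'.val x) →
      pr posW (fun ω => (a'.val (posX ω) ∧ b'.val (posX ω)) ∧ ¬ c.val (posX ω))
        ≤ (P0 : ℝ) ^ 2 / (n : ℝ) ^ 2 →
      pr posW (fun ω => (a.val (posX ω) ∧ b.val (posX ω)) ∧ ¬ c.val (posX ω))
        ≤ (4 + (P0 : ℝ) ^ 2) / (n : ℝ) ^ 2 ∧
      pr (negW p) (fun x => c.val x ∧ ¬ (a.val x ∧ b.val x)) ≤ 2 * (1 - τ) ^ P0 := by
    intro c hc hcp
    constructor
    · refine (pr_mono posW_nonneg (F := fun ω => (a.val (posX ω) ∧ ¬ a'.val (posX ω)) ∨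
        ((b.val (posX ω) ∧ ¬ b'.val (posX ω)) ∨
        ((a'.val (posX ω) ∧ b'.val (posX ω)) ∧ ¬ c.val (posX ω)))) ?_).trans ?_
      · rintro ω ⟨⟨h1, h2⟩, h3⟩
        by_cases e1 : a'.val (posX ω)
        · by_cases e2 : b'.val (posX ω)
          · exact Or.inr (Or.inr ⟨⟨e1, e2⟩, h3⟩)
          · exact Or.inr (Or.inl ⟨h2, e2⟩)
        · exact Or.inl ⟨h1, e1⟩
      · refine (pr_or posW_nonneg _ _).trans ?_
        have := pr_or posW_nonneg (fun ω => b.val (posX ω) ∧ ¬ b'.val (posX ω))
          (fun ω => (a'.val (posX ω) ∧ b'.val (posX ω)) ∧ ¬ c.val (posX ω))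
        have e : (4 + (P0 : ℝ) ^ 2) / (n : ℝ) ^ 2
            = 2 / (n : ℝ) ^ 2 + (2 / (n : ℝ) ^ 2 + (P0 : ℝ) ^ 2 / (n : ℝ) ^ 2) := by ring
        rw [e]
        linarith
    · refine (pr_mono (negW_nonneg P.hp0 P.hp1) (F := fun x => (a'.val x ∧ ¬ a.val x) ∨
        (b'.val x ∧ ¬ b.val x)) ?_).trans ?_
      · rintro x ⟨h1, h2⟩
        obtain ⟨h3, h4⟩ := hc x h1
        by_cases e1 : a.val x
        · by_cases e2 : b.val x
          · exact absurd ⟨e1, e2⟩ h2
          · exact Or.inr ⟨h4, e2⟩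
        · exact Or.inl ⟨h3, e1⟩
      · refine (pr_or (negW_nonneg P.hp0 P.hp1) _ _).trans ?_
        linarith
  have zero : ∀ c : Ap n d, (∀ x, a'.val x ∧ b'.val x → c.val x) →
      pr posW (fun ω => (a'.val (posX ω) ∧ b'.val (posX ω)) ∧ ¬ c.val (posX ω))
        ≤ (P0 : ℝ) ^ 2 / (n : ℝ) ^ 2 := by
    intro c hc
    refine (pr_mono posW_nonneg (F := fun _ => False) (fun ω h => h.2 (hc _ h.1))).trans ?_
    rw [pr_false]; positivity
  rcases hat with hat | ⟨hat, S1, hS1, hS1'⟩
  · refine ⟨b', hb', key b' (fun x h => ⟨Or.inl hat, h⟩) (zero b' (fun x h => h.2))⟩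
  · rcases hbt with hbt | ⟨hbt, S2, hS2, hS2'⟩
    · refine ⟨a', ha', key a' (fun x h => ⟨h, Or.inl hbt⟩) (zero a' (fun x h => h.1))⟩
    · refine ⟨⟨False, fun s y => a'.g s y ∧ b'.g s y⟩, ?_, key _ ?_ ?_⟩
      · intro s
        exact ⟨fun y z hyz h => ⟨(ha' s).1 y z hyz h.1, (hb' s).1 y z hyz h.2⟩,
          fun h => (ha' s).2 h.1⟩
      · rintro x (h | ⟨s, hs⟩)
        · exact h.elim
        · exact ⟨Or.inr ⟨s, hs.1⟩, Or.inr ⟨s, hs.2⟩⟩
      · have hpairs : ∀ ω : Fin n × Fin n × (Fin d → Bool),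
            ((a'.val (posX ω) ∧ b'.val (posX ω)) ∧
              ¬ (Ap.val ⟨False, fun s y => a'.g s y ∧ b'.g s y⟩ (posX ω))) →
            ∃ q ∈ (S1 ×ˢ S2).filter (fun q => q.1 ≠ q.2),
              posX ω q.1 ≠ bot ∧ posX ω q.2 ≠ bot := by
          rintro ω ⟨⟨h1, h2⟩, h3⟩
          rcases h1 with h1 | ⟨s, hs⟩
          · exact absurd h1 hat
          · rcases h2 with h2 | ⟨s', hs'⟩
            · exact absurd h2 hbt
            · refine ⟨(s, s'), ?_, ?_, ?_⟩
              · rw [Finset.mem_filter, Finset.mem_product]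
                refine ⟨⟨?_, ?_⟩, ?_⟩
                · by_contra hc; exact hS1' s hc _ hs
                · by_contra hc; exact hS2' s' hc _ hs'
                · intro he
                  simp only at he
                  subst he
                  exact h3 (Or.inr ⟨s, hs, hs'⟩)
              · intro he
                simp only at he
                rw [he] at hs
                exact (ha' s).2 hs
              · intro he
                simp only at he
                rw [he] at hs'
                exact (hb' s').2 hs'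
        obtain ⟨T, hT⟩ : ∃ T : Finset ((Fin n ⊕ Fin n) × (Fin n ⊕ Fin n)),
            T = (S1 ×ˢ S2).filter (fun q => q.1 ≠ q.2) := ⟨_, rfl⟩
        rw [← hT] at hpairs
        have hTc : (T.card : ℝ) ≤ (P0 : ℝ) ^ 2 := by
          have h1 : T.card ≤ P0 * P0 := by
            rw [hT]
            refine (Finset.card_filter_le _ _).trans ?_
            rw [Finset.card_product]
            exact Nat.mul_le_mul hS1 hS2
          have h2 : (T.card : ℝ) ≤ ((P0 * P0 : ℕ) : ℝ) := by exact_mod_cast h1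
          refine h2.trans (le_of_eq ?_)
          push_cast; ring
        have hTne : ∀ q ∈ T, q.1 ≠ q.2 := by
          intro q hq
          rw [hT] at hq
          exact (Finset.mem_filter.1 hq).2
        have hU := pr_biUnion posW_nonneg T
          (fun (q : (Fin n ⊕ Fin n) × (Fin n ⊕ Fin n)) (ω : Fin n × Fin n × (Fin d → Bool)) =>
            posX ω q.1 ≠ bot ∧ posX ω q.2 ≠ bot)
        refine (pr_mono posW_nonneg hpairs).trans (hU.trans ?_)
        have hsum : ∑ q ∈ T, pr posW (fun ω : Fin n × Fin n × (Fin d → Bool) =>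
            posX ω q.1 ≠ bot ∧ posX ω q.2 ≠ bot) ≤ ∑ _q ∈ T, 1 / (n : ℝ) ^ 2 :=
          Finset.sum_le_sum (fun q hq => pos_cross P.hn (hTne q hq))
        refine hsum.trans ?_
        rw [Finset.sum_const, nsmul_eq_mul]
        calc (T.card : ℝ) * (1 / (n : ℝ) ^ 2)
            ≤ (P0 : ℝ) ^ 2 * (1 / (n : ℝ) ^ 2) := by gcongr
          _ = _ := by ring

end Pool.Agent.H589R2.OV
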