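import Mathlib

/-!
# Monotone circuits for Orthogonal Vectors

An instance of Orthogonal Vectors of dimension `d` consists of `A B : Fin n → Fin d → Bool`; the
answer is yes iff for some `i`, `j` no coordinate `k` has `A i k = B j k = true`.  This is a monotone
function of the complemented bits `!A i k`, `!B j k`; the circuits below read the complemented bits.
-/

namespace Pool.Agent.H589R2.OV

/-- The answer to an Orthogonal Vectors instance. -/
def OVyes {n d : ℕ} (A B : Fin n → Fin d → Bool) : Prop :=
  ∃ i j, ∀ k, ¬ (A i k = true ∧ B j k = true)

/-- A gate.  Its inputs are earlier gates of the circuit, named by how far back they are. -/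
inductive Gate (n d : ℕ) where
  /-- a constant -/
  | const (c : Bool)
  /-- an arbitrary monotone function of the complemented bits of the `i`-th vector of `A` -/
  | rowA (i : Fin n) (f : (Fin d → Bool) →o Bool)
  /-- an arbitrary monotone function of the complemented bits of the `j`-th vector of `B` -/
  | rowB (j : Fin n) (f : (Fin d → Bool) →o Bool)
  /-- the disjunction of any number of earlier gates -/
  | or (J : List ℕ)
  /-- the conjunction of two earlier gates -/
  | and (k l : ℕ)

/-- Is it an AND gate? -/
def Gate.isAnd {n d : ℕ} : Gate n d → Bool
  | .and _ _ => true
  | _ => false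

/-- The value of a gate; `x i`, `y j` are the complemented vectors and `v k` the value of the gate
that comes `k + 1` places before this one. -/
def gateVal {n d : ℕ} (x y : Fin n → Fin d → Bool) (v : ℕ → Bool) : Gate n d → Bool
  | .const c => c
  | .rowA i f => f (x i)
  | .rowB j f => f (y j)
  | .or J => J.any v
  | .and k l => v k && v l

/-- A circuit, the most recent gate first. -/
abbrev Circ (n d : ℕ) := List (Gate n d)

/-- The values of all gates, the most recent gate first. -/
def vals {n d : ℕ} (x y : Fin n → Fin d → Bool) : Circ n d → List Bool
  | [] => []
  | g :: rest => gateVal x y (fun k => (vals x y rest).getD k false) g :: vals x y rest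

/-- The circuit accepts the instance `A, B` iff its last gate has value true. -/
def accepts {n d : ℕ} (C : Circ n d) (A B : Fin n → Fin d → Bool) : Prop :=
  (vals (fun i k => !(A i k)) (fun j k => !(B j k)) C).getD 0 false = true

/-- The number of AND gates. -/
def numAnd {n d : ℕ} (C : Circ n d) : ℕ := C.countP Gate.isAnd

end Pool.Agent.H589R2.OV
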