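import Pool.Agent.H589R2.OV.Ap
import Pool.Agent.H589R2.OV.Defs

/-!
# Approximating every gate of a monotone circuit
-/

open Finset

namespace Pool.Agent.H589R2.OV

variable {n d : ℕ}

/-- The value of the `k`-th most recent gate on a joint assignment. -/
def fv (C : Circ n d) (x : Fin n ⊕ Fin n → Fin d → Bool) (k : ℕ) : Bool :=
  (vals (fun i => x (Sum.inl i)) (fun j => x (Sum.inr j)) C).getD k false

theorem fv_nil (x : Fin n ⊕ Fin n → Fin d → Bool) (k : ℕ) : fv ([] : Circ n d) x k = false := by
  simp [fv, vals]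

theorem fv_succ (g : Gate n d) (C : Circ n d) (x : Fin n ⊕ Fin n → Fin d → Bool) (k : ℕ) :
    fv (g :: C) x (k + 1) = fv C x k := by
  simp [fv, vals]

theorem fv_zero (g : Gate n d) (C : Circ n d) (x : Fin n ⊕ Fin n → Fin d → Bool) :
    fv (g :: C) x 0 = gateVal (fun i => x (Sum.inl i)) (fun j => x (Sum.inr j)) (fv C x) g := by
  simp only [fv, vals, List.getD_cons_zero]
  rfl

/-- The approximator of a single row function. -/
def rowAp (s : Fin n ⊕ Fin n) (f : (Fin d → Bool) →o Bool) : Ap n d :=
  ⟨f bot = true, fun s' y => s' = s ∧ ¬ f bot = true ∧ f y = true⟩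

theorem rowAp_wf (s : Fin n ⊕ Fin n) (f : (Fin d → Bool) →o Bool) : (rowAp s f).WF := by
  intro s'
  refine ⟨?_, ?_⟩
  · rintro y z hyz ⟨h1, h2, h3⟩
    refine ⟨h1, h2, ?_⟩
    have := f.monotone hyz
    rw [h3] at this
    exact this rfl
  · rintro ⟨_, h2, h3⟩
    exact h2 h3

theorem rowAp_val (s : Fin n ⊕ Fin n) (f : (Fin d → Bool) →o Bool)
    (x : Fin n ⊕ Fin n → Fin d → Bool) : (rowAp s f).val x ↔ f (x s) = true := by
  constructor
  · rintro (h | ⟨s', h1, _, h3⟩)
    · have h' : f bot = true := h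
      have hle : (bot : Fin d → Bool) ≤ x s := fun k => by simp [bot]
      have := f.monotone hle
      rw [h'] at this
      exact this rfl
    · rw [← h1]; exact h3
  · intro h
    by_cases hb : f bot = true
    · exact Or.inl hb
    · exact Or.inr ⟨s, rfl, hb, h⟩

theorem circ_approx {p τ : ℝ} {m : ℕ} (P : Par n p τ m) (P0 : ℕ) (C : Circ n d) :
    ∃ (ap : ℕ → Ap n d) (U : Fin n × Fin n × (Fin d → Bool) → Prop)
      (V : (Fin n ⊕ Fin n → Fin d → Bool) → Prop),
      (∀ k, (ap k).WF) ∧
      pr posW U ≤ (numAnd C : ℝ) * ((4 + (P0 : ℝ) ^ 2) / (n : ℝ) ^ 2) ∧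
      pr (negW p) V ≤ (numAnd C : ℝ) * (2 * (1 - τ) ^ P0) ∧
      (∀ ω, ¬ U ω → ∀ k, fv C (posX ω) k = true → (ap k).val (posX ω)) ∧
      (∀ x, ¬ V x → ∀ k, (ap k).val x → fv C x k = true) := by
  classical
  induction C with
  | nil =>
    refine ⟨fun _ => ⟨False, fun _ _ => False⟩, fun _ => False, fun _ => False, ?_, ?_, ?_, ?_, ?_⟩
    · intro k s; exact ⟨fun _ _ _ h => h, fun h => h⟩
    · rw [pr_false]; simp [numAnd]
    · rw [pr_false]; simp [numAnd]
    · intro ω _ k h
      rw [fv_nil] at h
      exact absurd h (by simp)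
    · rintro x _ k (h | ⟨s, h⟩)
      · exact h.elim
      · exact h.elim
  | cons g C ih =>
    obtain ⟨ap, U, V, hwf, hU, hV, hpos, hneg⟩ := ih
    -- adding a gate that is approximated exactly
    have exact_gate : ∀ c : Ap n d, c.WF → g.isAnd = false →
        (∀ ω, ¬ U ω → fv (g :: C) (posX ω) 0 = true → c.val (posX ω)) →
        (∀ x, ¬ V x → c.val x → fv (g :: C) x 0 = true) →
        ∃ (ap : ℕ → Ap n d) (U : Fin n × Fin n × (Fin d → Bool) → Prop)
          (V : (Fin n ⊕ Fin n → Fin d → Bool) → Prop),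
          (∀ k, (ap k).WF) ∧
          pr posW U ≤ (numAnd (g :: C) : ℝ) * ((4 + (P0 : ℝ) ^ 2) / (n : ℝ) ^ 2) ∧
          pr (negW p) V ≤ (numAnd (g :: C) : ℝ) * (2 * (1 - τ) ^ P0) ∧
          (∀ ω, ¬ U ω → ∀ k, fv (g :: C) (posX ω) k = true → (ap k).val (posX ω)) ∧
          (∀ x, ¬ V x → ∀ k, (ap k).val x → fv (g :: C) x k = true) := by
      intro c hc hg h1 h2
      have hnum : numAnd (g :: C) = numAnd C := by
        unfold numAnd
        rw [List.countP_cons]
        simp [hg]
      refine ⟨fun k => Nat.casesOn k c ap, U, V, ?_, ?_, ?_, ?_, ?_⟩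
      · intro k
        cases k with
        | zero => exact hc
        | succ k => exact hwf k
      · rw [hnum]; exact hU
      · rw [hnum]; exact hV
      · intro ω hω k hk
        cases k with
        | zero => exact h1 ω hω hk
        | succ k =>
          rw [fv_succ] at hk
          exact hpos ω hω k hk
      · intro x hx k hk
        cases k with
        | zero => exact h2 x hx hk
        | succ k =>
          rw [fv_succ]
          exact hneg x hx k hk
    cases hgc : g with
    | const c =>
      rw [hgc] at exact_gate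
      refine exact_gate ⟨c = true, fun _ _ => False⟩ ?_ rfl ?_ ?_
      · intro s; exact ⟨fun _ _ _ h => h, fun h => h⟩
      · intro ω _ h
        rw [fv_zero] at h
        exact Or.inl h
      · rintro x _ (h | ⟨s, h⟩)
        · rw [fv_zero]; exact h
        · exact h.elim
    | rowA i f =>
      rw [hgc] at exact_gate
      refine exact_gate (rowAp (Sum.inl i) f) (rowAp_wf _ f) rfl ?_ ?_
      · intro ω _ h
        rw [fv_zero] at h
        rw [rowAp_val]; exact h
      · intro x _ h
        rw [rowAp_val] at h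
        rw [fv_zero]; exact h
    | rowB j f =>
      rw [hgc] at exact_gate
      refine exact_gate (rowAp (Sum.inr j) f) (rowAp_wf _ f) rfl ?_ ?_
      · intro ω _ h
        rw [fv_zero] at h
        rw [rowAp_val]; exact h
      · intro x _ h
        rw [rowAp_val] at h
        rw [fv_zero]; exact h
    | or J =>
      rw [hgc] at exact_gate
      refine exact_gate ⟨∃ k ∈ J, (ap k).top, fun s y => ∃ k ∈ J, (ap k).g s y⟩ ?_ rfl ?_ ?_
      · intro s
        refine ⟨?_, ?_⟩
        · rintro y z hyz ⟨k, hk, h⟩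
          exact ⟨k, hk, (hwf k s).1 y z hyz h⟩
        · rintro ⟨k, hk, h⟩
          exact (hwf k s).2 h
      · intro ω hω h
        rw [fv_zero] at h
        have h' : J.any (fv C (posX ω)) = true := h
        rw [List.any_eq_true] at h'
        obtain ⟨k, hk, hv⟩ := h'
        rcases hpos ω hω k hv with h1 | ⟨s, h1⟩
        · exact Or.inl ⟨k, hk, h1⟩
        · exact Or.inr ⟨s, k, hk, h1⟩
      · intro x hx h
        rw [fv_zero]
        change J.any (fv C x) = true
        rw [List.any_eq_true]
        rcases h with ⟨k, hk, h1⟩ | ⟨s, k, hk, h1⟩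
        · exact ⟨k, hk, hneg x hx k (Or.inl h1)⟩
        · exact ⟨k, hk, hneg x hx k (Or.inr ⟨s, h1⟩)⟩
    | and k l =>
      obtain ⟨c, hc, hcp, hcn⟩ := and_step P P0 (ap k) (ap l) (hwf k) (hwf l)
      have hnum : (numAnd (Gate.and k l :: C) : ℝ) = numAnd C + 1 := by
        unfold numAnd
        rw [List.countP_cons]
        simp [Gate.isAnd]
      refine ⟨fun k => Nat.casesOn k c ap,
        fun ω => U ω ∨ (((ap k).val (posX ω) ∧ (ap l).val (posX ω)) ∧ ¬ c.val (posX ω)),
        fun x => V x ∨ (c.val x ∧ ¬ ((ap k).val x ∧ (ap l).val x)), ?_, ?_, ?_, ?_, ?_⟩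
      · intro k
        cases k with
        | zero => exact hc
        | succ k => exact hwf k
      · refine (pr_or posW_nonneg _ _).trans ?_
        rw [hnum, add_mul, one_mul]
        exact add_le_add hU hcp
      · refine (pr_or (negW_nonneg P.hp0 P.hp1) _ _).trans ?_
        rw [hnum, add_mul, one_mul]
        exact add_le_add hV hcn
      · intro ω hω q hq
        rw [not_or] at hω
        cases q with
        | zero =>
          rw [fv_zero] at hq
          have hq' : (fv C (posX ω) k && fv C (posX ω) l) = true := hq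
          rw [Bool.and_eq_true] at hq'
          have e1 := hpos ω hω.1 k hq'.1
          have e2 := hpos ω hω.1 l hq'.2
          by_contra hcv
          exact hω.2 ⟨⟨e1, e2⟩, hcv⟩
        | succ q =>
          rw [fv_succ] at hq
          exact hpos ω hω.1 q hq
      · intro x hx q hq
        rw [not_or] at hx
        cases q with
        | zero =>
          rw [fv_zero]
          change (fv C x k && fv C x l) = true
          rw [Bool.and_eq_true]
          by_cases e1 : (ap k).val x
          · by_cases e2 : (ap l).val x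
            · exact ⟨hneg x hx.1 k e1, hneg x hx.1 l e2⟩
            · exact absurd ⟨hq, fun hh => e2 hh.2⟩ hx.2
          · exact absurd ⟨hq, fun hh => e1 hh.1⟩ hx.2
        | succ q =>
          rw [fv_succ]
          exact hneg x hx.1 q hq

/-- Every circuit with few AND gates accepts most negative instances or rejects most positive
instances. -/
theorem circ_dichotomy {p τ : ℝ} {m : ℕ} (P : Par n p τ m) (P0 : ℕ) (C : Circ n d) :
    pr (negW p) (fun x => ¬ fv C x 0 = true)
      ≤ (numAnd C : ℝ) * (2 * (1 - τ) ^ P0) + (1 - τ) ^ P0 ∨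
    pr posW (fun ω => fv C (posX ω) 0 = true)
      ≤ (numAnd C : ℝ) * ((4 + (P0 : ℝ) ^ 2) / (n : ℝ) ^ 2) + 2 / (n : ℝ) ^ 2 + (P0 : ℝ) / n := by
  classical
  obtain ⟨ap, U, V, hwf, hU, hV, hpos, hneg⟩ := circ_approx P P0 C
  obtain ⟨a', ha', hat, hap, han⟩ := trim P P0 (ap 0) (hwf 0)
  have hn' : (0 : ℝ) < n := by exact_mod_cast P.hn
  rcases hat with hat | ⟨hat, S, hS, hS'⟩
  · left
    refine (pr_mono (negW_nonneg P.hp0 P.hp1) (F := fun x => V x ∨ (a'.val x ∧ ¬ (ap 0).val x))
      ?_).trans ?_
    · intro x hx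
      by_cases hv : V x
      · exact Or.inl hv
      · exact Or.inr ⟨Or.inl hat, fun hh => hx (hneg x hv 0 hh)⟩
    · exact (pr_or (negW_nonneg P.hp0 P.hp1) _ _).trans (add_le_add hV han)
  · right
    have hrow : pr posW (fun ω : Fin n × Fin n × (Fin d → Bool) => ∃ s ∈ S, posX ω s ≠ bot)
        ≤ (P0 : ℝ) / n := by
      refine (pr_biUnion posW_nonneg S (fun s (ω : Fin n × Fin n × (Fin d → Bool)) =>
        posX ω s ≠ bot)).trans ?_
      refine (Finset.sum_le_sum (fun s _ => pos_row P.hn s)).trans ?_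
      rw [Finset.sum_const, nsmul_eq_mul]
      have : (S.card : ℝ) ≤ P0 := by exact_mod_cast hS
      calc (S.card : ℝ) * (1 / (n : ℝ)) ≤ (P0 : ℝ) * (1 / (n : ℝ)) := by gcongr
        _ = _ := by ring
    refine (pr_mono posW_nonneg (F := fun ω => (U ω ∨
      ((ap 0).val (posX ω) ∧ ¬ a'.val (posX ω))) ∨ (∃ s ∈ S, posX ω s ≠ bot)) ?_).trans ?_
    · intro ω hω
      by_cases hu : U ω
      · exact Or.inl (Or.inl hu)
      · have h1 := hpos ω hu 0 hω
        by_cases h2 : a'.val (posX ω)
        · rcases h2 with h2 | ⟨s, hs⟩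
          · exact absurd h2 hat
          · refine Or.inr ⟨s, ?_, ?_⟩
            · by_contra hc
              exact hS' s hc _ hs
            · intro he
              rw [he] at hs
              exact (ha' s).2 hs
        · exact Or.inl (Or.inr ⟨h1, h2⟩)
    · refine (pr_or posW_nonneg _ _).trans ?_
      have := pr_or posW_nonneg U (fun ω => (ap 0).val (posX ω) ∧ ¬ a'.val (posX ω))
      linarith

end Pool.Agent.H589R2.OV
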