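import Mathlib

/-!
# Finite product measures and the power inequality for monotone events
-/

open Finset

namespace Pool.Agent.H589R2.OV

section General

variable {Ω : Type*} [Fintype Ω]

open Classical in
/-- The weight of an event. -/
noncomputable def pr (W : Ω → ℝ) (E : Ω → Prop) : ℝ := ∑ x, W x * (if E x then 1 else 0)

theorem pr_nonneg {W : Ω → ℝ} (hW : ∀ x, 0 ≤ W x) (E : Ω → Prop) : 0 ≤ pr W E := by
  classical
  unfold pr
  refine Finset.sum_nonneg (fun x _ => mul_nonneg (hW x) ?_)
  split_ifs <;> norm_num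

theorem pr_mono {W : Ω → ℝ} (hW : ∀ x, 0 ≤ W x) {E F : Ω → Prop} (h : ∀ x, E x → F x) :
    pr W E ≤ pr W F := by
  classical
  unfold pr
  refine Finset.sum_le_sum (fun x _ => mul_le_mul_of_nonneg_left ?_ (hW x))
  by_cases hE : E x
  · simp [hE, h x hE]
  · simp only [hE, if_false]
    split_ifs <;> norm_num

theorem pr_congr {W : Ω → ℝ} {E F : Ω → Prop} (h : ∀ x, E x ↔ F x) : pr W E = pr W F := by
  have : E = F := funext fun x => propext (h x)
  rw [this]

theorem pr_or {W : Ω → ℝ} (hW : ∀ x, 0 ≤ W x) (E F : Ω → Prop) :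
    pr W (fun x => E x ∨ F x) ≤ pr W E + pr W F := by
  classical
  unfold pr
  rw [← Finset.sum_add_distrib]
  refine Finset.sum_le_sum (fun x _ => ?_)
  rw [← mul_add]
  refine mul_le_mul_of_nonneg_left ?_ (hW x)
  by_cases hE : E x <;> by_cases hF : F x <;> simp [hE, hF]

theorem pr_biUnion {W : Ω → ℝ} (hW : ∀ x, 0 ≤ W x) {ι : Type*} (s : Finset ι)
    (E : ι → Ω → Prop) :
    pr W (fun x => ∃ i ∈ s, E i x) ≤ ∑ i ∈ s, pr W (E i) := by
  classical
  induction s using Finset.induction_on with
  | empty =>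
    simp [pr]
  | insert a s ha ih =>
    rw [Finset.sum_insert ha]
    refine (pr_mono hW (F := fun x => E a x ∨ ∃ i ∈ s, E i x) ?_).trans ((pr_or hW _ _).trans ?_)
    · rintro x ⟨i, hi, h⟩
      rcases Finset.mem_insert.1 hi with rfl | hi
      · exact Or.inl h
      · exact Or.inr ⟨i, hi, h⟩
    · linarith

theorem pr_true (W : Ω → ℝ) : pr W (fun _ => True) = ∑ x, W x := by
  classical
  simp [pr]

theorem pr_false (W : Ω → ℝ) : pr W (fun _ => False) = 0 := by
  classical
  simp [pr]

theorem pr_compl {W : Ω → ℝ} (h1 : ∑ x, W x = 1) (E : Ω → Prop) :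
    pr W (fun x => ¬ E x) = 1 - pr W E := by
  classical
  rw [← h1]
  unfold pr
  rw [← Finset.sum_sub_distrib]
  refine Finset.sum_congr rfl (fun x _ => ?_)
  by_cases hE : E x <;> simp [hE]

theorem pr_le_one {W : Ω → ℝ} (hW : ∀ x, 0 ≤ W x) (h1 : ∑ x, W x = 1) (E : Ω → Prop) :
    pr W E ≤ 1 := by
  rw [← h1, ← pr_true]
  exact pr_mono hW (fun _ _ => trivial)

end General

section Pi

variable {ι Y : Type*} [Fintype ι] [DecidableEq ι] [Fintype Y]

/-- The product weight. -/
noncomputable def piW (w : Y → ℝ) (x : ι → Y) : ℝ := ∏ i, w (x i)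

theorem piW_nonneg {w : Y → ℝ} (hw : ∀ y, 0 ≤ w y) (x : ι → Y) : 0 ≤ piW w x :=
  Finset.prod_nonneg (fun i _ => hw (x i))

theorem pr_pi (w : Y → ℝ) (G : ι → Y → Prop) :
    pr (piW w) (fun x : ι → Y => ∀ i, G i (x i)) = ∏ i, pr w (G i) := by
  classical
  unfold pr piW
  rw [Finset.prod_univ_sum, Fintype.piFinset_univ]
  refine Finset.sum_congr rfl (fun x _ => ?_)
  rw [Finset.prod_mul_distrib]
  congr 1
  by_cases h : ∀ i, G i (x i)
  · rw [if_pos h, Finset.prod_eq_one]
    intro i _
    rw [if_pos (h i)]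
  · rw [if_neg h]
    push Not at h
    obtain ⟨i, hi⟩ := h
    rw [Finset.prod_eq_zero (Finset.mem_univ i)]
    rw [if_neg hi]

theorem sum_piW {w : Y → ℝ} (h1 : ∑ y, w y = 1) : ∑ x : ι → Y, piW w x = 1 := by
  have h := pr_pi (ι := ι) w (fun _ _ => True)
  simp only [implies_true, pr_true, h1, Finset.prod_const_one] at h
  exact h

/-- An event depending on two different coordinates. -/
theorem pr_pair {w : Y → ℝ} (h1 : ∑ y, w y = 1) {i j : ι} (hij : i ≠ j) (E : Y → Y → Prop) :
    pr (piW w) (fun x : ι → Y => E (x i) (x j)) = ∑ y, w y * pr w (fun z => E y z) := by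
  classical
  have key : ∀ y z : Y, pr (piW w) (fun x : ι → Y => x i = y ∧ x j = z) = w y * w z := by
    intro y z
    have h := pr_pi (ι := ι) w (fun l v => (l = i → v = y) ∧ (l = j → v = z))
    have h2 : pr (piW w) (fun x : ι → Y => x i = y ∧ x j = z)
        = pr (piW w) (fun x : ι → Y => ∀ l, (l = i → x l = y) ∧ (l = j → x l = z)) := by
      refine pr_congr (fun x => ⟨?_, ?_⟩)
      · rintro ⟨ha, hb⟩ l
        exact ⟨fun hl => hl ▸ ha, fun hl => hl ▸ hb⟩
      · intro hx
        exact ⟨(hx i).1 rfl, (hx j).2 rfl⟩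
    rw [h2, h]
    have hsing : ∀ y : Y, pr w (fun v => v = y) = w y := by
      intro y
      unfold pr
      rw [Finset.sum_eq_single y]
      · simp
      · intro v _ hv; simp [hv]
      · intro hv; exact absurd (Finset.mem_univ _) hv
    rw [← Finset.mul_prod_erase Finset.univ _ (Finset.mem_univ i),
      ← Finset.mul_prod_erase (Finset.univ.erase i) _
        (Finset.mem_erase.2 ⟨hij.symm, Finset.mem_univ j⟩)]
    have e1 : pr w (fun v => (i = i → v = y) ∧ (i = j → v = z)) = w y := by
      rw [← hsing y]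
      exact pr_congr (fun v => ⟨fun hv => hv.1 rfl, fun hv => ⟨fun _ => hv, fun hc => absurd hc hij⟩⟩)
    have e2 : pr w (fun v => (j = i → v = y) ∧ (j = j → v = z)) = w z := by
      rw [← hsing z]
      exact pr_congr (fun v => ⟨fun hv => hv.2 rfl,
        fun hv => ⟨fun hc => absurd hc.symm hij, fun _ => hv⟩⟩)
    rw [e1, e2, Finset.prod_eq_one, mul_one]
    intro l hl
    rw [Finset.mem_erase, Finset.mem_erase] at hl
    rw [← h1, ← pr_true]
    exact pr_congr (fun v => ⟨fun _ => trivial,
      fun _ => ⟨fun hc => absurd hc hl.2.1, fun hc => absurd hc hl.1⟩⟩)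
  have hdec : pr (piW w) (fun x : ι → Y => E (x i) (x j))
      = ∑ y, ∑ z, (if E y z then pr (piW w) (fun x : ι → Y => x i = y ∧ x j = z) else 0) := by
    have : ∀ y z : Y, (if E y z then pr (piW w) (fun x : ι → Y => x i = y ∧ x j = z) else 0)
        = ∑ x : ι → Y, piW w x * (if E y z ∧ x i = y ∧ x j = z then 1 else 0) := by
      intro y z
      by_cases hE : E y z
      · rw [if_pos hE]
        unfold pr
        refine Finset.sum_congr rfl (fun x _ => ?_)
        by_cases hx : x i = y ∧ x j = z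
        · rw [if_pos hx, if_pos ⟨hE, hx⟩]
        · rw [if_neg hx, if_neg (fun h => hx h.2)]
      · rw [if_neg hE]
        symm
        refine Finset.sum_eq_zero (fun x _ => ?_)
        rw [if_neg (fun h => hE h.1), mul_zero]
    simp only [this]
    rw [Finset.sum_congr rfl (fun y _ => Finset.sum_comm), Finset.sum_comm]
    unfold pr
    refine Finset.sum_congr rfl (fun x _ => ?_)
    rw [Finset.sum_eq_single (x i), Finset.sum_eq_single (x j)]
    · simp
    · intro z _ hz
      rw [if_neg, mul_zero]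
      rintro ⟨_, _, h⟩
      exact hz h.symm
    · intro h; exact absurd (Finset.mem_univ _) h
    · intro y _ hy
      refine Finset.sum_eq_zero (fun z _ => ?_)
      rw [if_neg, mul_zero]
      rintro ⟨_, h, _⟩
      exact hy h.symm
    · intro h; exact absurd (Finset.mem_univ _) h
  rw [hdec]
  refine Finset.sum_congr rfl (fun y _ => ?_)
  have hr : pr w (fun z => E y z) = ∑ z, w z * (if E y z then 1 else 0) := rfl
  rw [hr, Finset.mul_sum]
  refine Finset.sum_congr rfl (fun z _ => ?_)
  rw [key]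
  by_cases hE : E y z <;> simp [hE]

end Pi

end Pool.Agent.H589R2.OV
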