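import Pool.Agent.H589R2.OV.Meas

/-!
# The power inequality: for a monotone event, the measure at a density `r ≤ p ^ m` is at most the
`m`-th power of the measure at density `p`.
-/

open Finset

namespace Pool.Agent.H589R2.OV

/-- The weight of one biased bit. -/
noncomputable def bw (p : ℝ) (b : Bool) : ℝ := if b then p else 1 - p

theorem bw_nonneg {p : ℝ} (h0 : 0 ≤ p) (h1 : p ≤ 1) (b : Bool) : 0 ≤ bw p b := by
  cases b
  · simp only [bw]; simpa using h1
  · simp only [bw]; simpa using h0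

theorem bw_sum (p : ℝ) : ∑ b, bw p b = 1 := by
  simp [bw]

/-- The measure of an event under independent bits that are `true` with probability `p`. -/
noncomputable def mu (p : ℝ) {d : ℕ} (G : (Fin d → Bool) → Prop) : ℝ := pr (piW (bw p)) G

theorem mu_nonneg {p : ℝ} (h0 : 0 ≤ p) (h1 : p ≤ 1) {d : ℕ} (G : (Fin d → Bool) → Prop) :
    0 ≤ mu p G :=
  pr_nonneg (piW_nonneg (bw_nonneg h0 h1)) G

theorem mu_le_one {p : ℝ} (h0 : 0 ≤ p) (h1 : p ≤ 1) {d : ℕ} (G : (Fin d → Bool) → Prop) :
    mu p G ≤ 1 :=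
  pr_le_one (piW_nonneg (bw_nonneg h0 h1)) (sum_piW (bw_sum p)) G

theorem mu_mono {p : ℝ} (h0 : 0 ≤ p) (h1 : p ≤ 1) {d : ℕ} {G H : (Fin d → Bool) → Prop}
    (h : ∀ x, G x → H x) : mu p G ≤ mu p H :=
  pr_mono (piW_nonneg (bw_nonneg h0 h1)) h

theorem mu_succ (p : ℝ) {d : ℕ} (G : (Fin (d + 1) → Bool) → Prop) :
    mu p G = p * mu p (fun y => G (Fin.cons true y)) + (1 - p) * mu p (fun y => G (Fin.cons false y)) := by
  classical
  unfold mu pr
  rw [← (Fin.consEquiv (fun _ : Fin (d + 1) => Bool)).sum_comp, Fintype.sum_prod_type]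
  rw [Fintype.sum_bool, Finset.mul_sum, Finset.mul_sum]
  congr 1 <;>
  · refine Finset.sum_congr rfl (fun y _ => ?_)
    have : ∀ c : Bool, (Fin.consEquiv (fun _ : Fin (d + 1) => Bool)) (c, y)
        = (Fin.cons c y : Fin (d + 1) → Bool) := fun _ => rfl
    rw [this]
    unfold piW
    rw [Fin.prod_univ_succ]
    simp only [Fin.cons_zero, Fin.cons_succ]
    simp only [bw]
    simp [mul_assoc]

theorem pow_interp {x y p : ℝ} (hx : 0 ≤ x) (hxy : x ≤ y) (hp0 : 0 ≤ p) (hp1 : p ≤ 1) (m : ℕ) :
    x ^ (m + 1) + p ^ (m + 1) * (y ^ (m + 1) - x ^ (m + 1)) ≤ (x + p * (y - x)) ^ (m + 1) := by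
  induction m with
  | zero => simp
  | succ m ih =>
    have h1 : 0 ≤ x + p * (y - x) := by
      have : 0 ≤ p * (y - x) := mul_nonneg hp0 (by linarith)
      linarith
    have h2 := mul_le_mul_of_nonneg_left ih h1
    have h3 : (x + p * (y - x)) ^ (m + 1 + 1) = (x + p * (y - x)) * (x + p * (y - x)) ^ (m + 1) := by
      ring
    rw [h3]
    refine le_trans ?_ h2
    have hy : x ^ (m + 1) ≤ y ^ (m + 1) := pow_le_pow_left₀ hx hxy _
    have hpm : p ^ (m + 1) ≤ 1 := pow_le_one₀ hp0 hp1
    have hpm0 : 0 ≤ p ^ (m + 1) := pow_nonneg hp0 _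
    have e1 : 0 ≤ x * (y ^ (m + 1) - x ^ (m + 1)) * (p ^ (m + 1) * (1 - p)) := by
      apply mul_nonneg
      · exact mul_nonneg hx (by linarith)
      · exact mul_nonneg hpm0 (by linarith)
    have e2 : 0 ≤ x ^ (m + 1) * (y - x) * (p * (1 - p ^ (m + 1))) := by
      apply mul_nonneg
      · exact mul_nonneg (pow_nonneg hx _) (by linarith)
      · exact mul_nonneg hp0 (by linarith)
    have e3 : (x + p * (y - x)) * (x ^ (m + 1) + p ^ (m + 1) * (y ^ (m + 1) - x ^ (m + 1)))
        - (x ^ (m + 1 + 1) + p ^ (m + 1 + 1) * (y ^ (m + 1 + 1) - x ^ (m + 1 + 1)))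
        = x * (y ^ (m + 1) - x ^ (m + 1)) * (p ^ (m + 1) * (1 - p))
          + x ^ (m + 1) * (y - x) * (p * (1 - p ^ (m + 1))) := by
      ring
    linarith

/-- The power inequality. -/
theorem mu_pow {p r : ℝ} (hp0 : 0 ≤ p) (hp1 : p ≤ 1) (hr0 : 0 ≤ r) {m : ℕ} (hr : r ≤ p ^ (m + 1))
    {d : ℕ} (G : (Fin d → Bool) → Prop) (hG : ∀ y z : Fin d → Bool, y ≤ z → G y → G z) :
    mu r G ≤ (mu p G) ^ (m + 1) := by
  have hr1 : r ≤ 1 := hr.trans (pow_le_one₀ hp0 hp1)
  induction d with
  | zero =>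
    classical
    by_cases h : G (fun i => Fin.elim0 i)
    · have hall : ∀ x : Fin 0 → Bool, G x := fun x => by
        have : x = fun i => Fin.elim0 i := Subsingleton.elim _ _
        rw [this]; exact h
      have e : ∀ s : ℝ, mu s G = 1 := by
        intro s
        have : mu s G = mu s (fun _ : Fin 0 → Bool => True) :=
          pr_congr (fun x => ⟨fun _ => trivial, fun _ => hall x⟩)
        rw [this]
        unfold mu
        rw [pr_true, sum_piW (bw_sum s)]
      rw [e, e]; simp
    · have hall : ∀ x : Fin 0 → Bool, ¬ G x := fun x => by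
        have : x = fun i => Fin.elim0 i := Subsingleton.elim _ _
        rw [this]; exact h
      have e : ∀ s : ℝ, mu s G = 0 := by
        intro s
        have : mu s G = mu s (fun _ : Fin 0 → Bool => False) :=
          pr_congr (fun x => ⟨fun hx => hall x hx, fun hf => hf.elim⟩)
        rw [this]
        unfold mu
        rw [pr_false]
      rw [e, e]; simp
  | succ d ih =>
    rw [mu_succ r, mu_succ p]
    have hc : ∀ (b : Bool), ∀ y z : Fin d → Bool, y ≤ z →
        G (Fin.cons b y) → G (Fin.cons b z) := by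
      intro b y z hyz
      apply hG
      intro k
      refine Fin.cases ?_ (fun k => ?_) k
      · simp
      · simpa using hyz k
    have h1 := ih (fun y => G (Fin.cons true y)) (hc true)
    have h0 := ih (fun y => G (Fin.cons false y)) (hc false)
    set B1 := mu p (fun y => G (Fin.cons true y))
    set B0 := mu p (fun y => G (Fin.cons false y))
    have hB0 : 0 ≤ B0 := mu_nonneg hp0 hp1 _
    have hB : B0 ≤ B1 := by
      apply mu_mono hp0 hp1
      intro y
      apply hG
      intro k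
      refine Fin.cases ?_ (fun k => ?_) k
      · simp
      · simp
    have hpw : B0 ^ (m + 1) ≤ B1 ^ (m + 1) := pow_le_pow_left₀ hB0 hB _
    calc r * mu r (fun y => G (Fin.cons true y)) + (1 - r) * mu r (fun y => G (Fin.cons false y))
        ≤ r * B1 ^ (m + 1) + (1 - r) * B0 ^ (m + 1) := by
          have := mul_le_mul_of_nonneg_left h1 hr0
          have := mul_le_mul_of_nonneg_left h0 (by linarith : (0 : ℝ) ≤ 1 - r)
          linarith
      _ = B0 ^ (m + 1) + r * (B1 ^ (m + 1) - B0 ^ (m + 1)) := by ring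
      _ ≤ B0 ^ (m + 1) + p ^ (m + 1) * (B1 ^ (m + 1) - B0 ^ (m + 1)) := by
          have := mul_le_mul_of_nonneg_right hr (by linarith : (0 : ℝ) ≤ B1 ^ (m + 1) - B0 ^ (m + 1))
          linarith
      _ ≤ (B0 + p * (B1 - B0)) ^ (m + 1) := pow_interp hB0 hB hp0 hp1 m
      _ = (p * B1 + (1 - p) * B0) ^ (m + 1) := by
          congr 1
          ring

/-- Orthogonality of two independent vectors of density `1 - p` (in complemented bits). -/
theorem mu_orth (p : ℝ) (d : ℕ) :
    ∑ y : Fin d → Bool, piW (bw p) y * mu p (fun z => ∀ k, y k = true ∨ z k = true)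
      = (1 - (1 - p) ^ 2) ^ d := by
  classical
  have h1 : ∀ y : Fin d → Bool, mu p (fun z => ∀ k, y k = true ∨ z k = true)
      = ∏ k, (if y k then 1 else p) := by
    intro y
    unfold mu
    rw [pr_pi (bw p) (fun k b => y k = true ∨ b = true)]
    refine Finset.prod_congr rfl (fun k _ => ?_)
    unfold pr
    rw [Fintype.sum_bool]
    cases hy : y k
    · simp [bw]
    · simp [bw]
  have h2 : ∀ y : Fin d → Bool, piW (bw p) y * mu p (fun z => ∀ k, y k = true ∨ z k = true)
      = ∏ k, (bw p (y k) * (if y k then 1 else p)) := by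
    intro y
    rw [h1, Finset.prod_mul_distrib]
    rfl
  simp only [h2]
  have h3 := (Finset.prod_univ_sum (fun _ : Fin d => (Finset.univ : Finset Bool))
    (fun _ b => bw p b * (if b then 1 else p))).symm
  rw [Fintype.piFinset_univ] at h3
  rw [h3]
  rw [Finset.prod_const, Finset.card_univ, Fintype.card_fin]
  congr 1
  rw [Fintype.sum_bool]
  simp [bw]
  ring

end Pool.Agent.H589R2.OV
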