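import Pool.Agent.H589R2.OV.CircL

/-!
# Labels that make the vectors distinct, and the error on the two distributions
-/

open Finset

namespace Pool.Agent.H589R2.OV

variable {n d D : ℕ}

/-- Complemented bits of the `i`-th vector of `A`. -/
def embA (d l : ℕ) (i : ℕ) (y : Fin d → Bool) : Fin D → Bool := fun k =>
  if h : k.1 < d then y ⟨k.1, h⟩
  else if k.1 < d + l then !(Nat.testBit i (k.1 - d)) else true

/-- Complemented bits of the `j`-th vector of `B`. -/
def embB (d l : ℕ) (j : ℕ) (y : Fin d → Bool) : Fin D → Bool := fun k =>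
  if h : k.1 < d then y ⟨k.1, h⟩
  else if k.1 < d + l then true
  else if k.1 < d + 2 * l then !(Nat.testBit j (k.1 - d - l)) else true

theorem embA_mono (d l i : ℕ) : Monotone (embA (D := D) d l i) := by
  intro y z hyz k
  unfold embA
  by_cases h : k.1 < d
  · simp only [h, dif_pos]; exact hyz _
  · simp only [h, dif_neg, not_false_iff, le_refl]

theorem embB_mono (d l j : ℕ) : Monotone (embB (D := D) d l j) := by
  intro y z hyz k
  unfold embB
  by_cases h : k.1 < d
  · simp only [h, dif_pos]; exact hyz _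
  · simp only [h, dif_neg, not_false_iff, le_refl]

/-- Restricting one gate. -/
def resGate (d l : ℕ) : Gate n D → Gate n d
  | .const c => .const c
  | .rowA i f => .rowA i (f.comp ⟨embA d l i.1, embA_mono d l i.1⟩)
  | .rowB j f => .rowB j (f.comp ⟨embB d l j.1, embB_mono d l j.1⟩)
  | .or J => .or J
  | .and k k' => .and k k'

theorem resGate_isAnd (l : ℕ) (g : Gate n D) : (resGate d l g).isAnd = g.isAnd := by
  cases g <;> rfl

theorem numAnd_res (l : ℕ) (C : Circ n D) : numAnd (C.map (resGate d l)) = numAnd C := by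
  unfold numAnd
  rw [List.countP_map]
  congr 1
  funext g
  exact resGate_isAnd l g

theorem vals_res (l : ℕ) (C : Circ n D) (x y : Fin n → Fin d → Bool) :
    vals x y (C.map (resGate d l))
      = vals (fun i => embA d l i.1 (x i)) (fun j => embB d l j.1 (y j)) C := by
  induction C with
  | nil => rfl
  | cons g C ih =>
    rw [List.map_cons]
    simp only [vals]
    rw [ih]
    congr 1
    cases g <;> rfl

/-- The `A` side of the labelled instance. -/
def instA (l : ℕ) (z : Fin n ⊕ Fin n → Fin d → Bool) : Fin n → Fin D → Bool :=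
  fun i k => !(embA d l i.1 (z (Sum.inl i)) k)

/-- The `B` side of the labelled instance. -/
def instB (l : ℕ) (z : Fin n ⊕ Fin n → Fin d → Bool) : Fin n → Fin D → Bool :=
  fun j k => !(embB d l j.1 (z (Sum.inr j)) k)

theorem accepts_iff (l : ℕ) (C : Circ n D) (z : Fin n ⊕ Fin n → Fin d → Bool) :
    accepts C (instA l z) (instB l z) ↔ fv (C.map (resGate d l)) z 0 = true := by
  unfold accepts fv instA instB
  rw [vals_res]
  simp only [Bool.not_not]

theorem instA_inj (l : ℕ) (hl : n ≤ 2 ^ l) (hD : d + 2 * l ≤ D)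
    (z : Fin n ⊕ Fin n → Fin d → Bool) :
    Function.Injective (instA (D := D) l z) := by
  intro i i' h
  apply Fin.ext
  apply Nat.eq_of_testBit_eq
  intro q
  by_cases hq : q < l
  · have hk : d + q < D := by omega
    have h1 := congrFun h ⟨d + q, hk⟩
    simp only [instA, embA] at h1
    have e1 : ¬ (d + q < d) := by omega
    have e2 : d + q < d + l := by omega
    have e3 : d + q - d = q := by omega
    simp only [e1, e2, dif_neg, if_true, e3, not_false_iff, Bool.not_not] at h1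
    exact h1
  · have hp : 2 ^ l ≤ 2 ^ q := Nat.pow_le_pow_right (by norm_num) (not_lt.1 hq)
    rw [Nat.testBit_lt_two_pow (lt_of_lt_of_le i.2 (hl.trans hp)),
      Nat.testBit_lt_two_pow (lt_of_lt_of_le i'.2 (hl.trans hp))]

theorem instB_inj (l : ℕ) (hl : n ≤ 2 ^ l) (hD : d + 2 * l ≤ D)
    (z : Fin n ⊕ Fin n → Fin d → Bool) :
    Function.Injective (instB (D := D) l z) := by
  intro i i' h
  apply Fin.ext
  apply Nat.eq_of_testBit_eq
  intro q
  by_cases hq : q < l
  · have hk : d + l + q < D := by omega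
    have h1 := congrFun h ⟨d + l + q, hk⟩
    simp only [instB, embB] at h1
    have e1 : ¬ (d + l + q < d) := by omega
    have e2 : ¬ (d + l + q < d + l) := by omega
    have e4 : d + l + q < d + 2 * l := by omega
    have e3 : d + l + q - d - l = q := by omega
    simp only [e1, e2, e4, dif_neg, if_true, if_false, e3, not_false_iff, Bool.not_not] at h1
    exact h1
  · have hp : 2 ^ l ≤ 2 ^ q := Nat.pow_le_pow_right (by norm_num) (not_lt.1 hq)
    rw [Nat.testBit_lt_two_pow (lt_of_lt_of_le i.2 (hl.trans hp)),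
      Nat.testBit_lt_two_pow (lt_of_lt_of_le i'.2 (hl.trans hp))]

theorem ov_iff (l : ℕ) (hD : d + 2 * l ≤ D) (z : Fin n ⊕ Fin n → Fin d → Bool) :
    OVyes (instA (D := D) l z) (instB (D := D) l z) ↔
      ∃ i j, ∀ k, z (Sum.inl i) k = true ∨ z (Sum.inr j) k = true := by
  unfold OVyes
  constructor
  · rintro ⟨i, j, h⟩
    refine ⟨i, j, fun k => ?_⟩
    have hk := h ⟨k.1, by omega⟩
    simp only [instA, instB, embA, embB, k.2, dif_pos, Fin.eta] at hk
    cases h1 : z (Sum.inl i) k <;> cases h2 : z (Sum.inr j) k <;> simp_all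
  · rintro ⟨i, j, h⟩
    refine ⟨i, j, fun k => ?_⟩
    rintro ⟨h1, h2⟩
    simp only [instA, embA] at h1
    simp only [instB, embB] at h2
    by_cases hk : k.1 < d
    · simp only [hk, dif_pos] at h1 h2
      have := h ⟨k.1, hk⟩
      rcases this with h3 | h3
      · rw [h3] at h1; simp at h1
      · rw [h3] at h2; simp at h2
    · simp only [hk, dif_neg, not_false_iff] at h1 h2
      by_cases hk2 : k.1 < d + l
      · simp [hk2] at h2
      · simp [hk2] at h1

/-- The circuit is wrong on the labelled instance. -/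
def wrong (l : ℕ) (C : Circ n D) (z : Fin n ⊕ Fin n → Fin d → Bool) : Prop :=
  ¬ (accepts C (instA l z) (instB l z) ↔ OVyes (instA (D := D) l z) (instB (D := D) l z))

theorem neg_ov {p : ℝ} (h0 : 0 ≤ p) (h1 : p ≤ 1) :
    pr (negW p) (fun z : Fin n ⊕ Fin n → Fin d → Bool =>
      ∃ i j, ∀ k, z (Sum.inl i) k = true ∨ z (Sum.inr j) k = true)
      ≤ (n : ℝ) ^ 2 * (1 - (1 - p) ^ 2) ^ d := by
  classical
  have hmono : ∀ z : Fin n ⊕ Fin n → Fin d → Bool,
      (∃ i j, ∀ k, z (Sum.inl i) k = true ∨ z (Sum.inr j) k = true) →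
      ∃ q ∈ (Finset.univ : Finset (Fin n × Fin n)),
        ∀ k, z (Sum.inl q.1) k = true ∨ z (Sum.inr q.2) k = true := by
    rintro z ⟨i, j, h⟩
    exact ⟨(i, j), Finset.mem_univ _, h⟩
  have hU := pr_biUnion (negW_nonneg (n := n) (d := d) h0 h1) (Finset.univ : Finset (Fin n × Fin n))
    (fun (q : Fin n × Fin n) (z : Fin n ⊕ Fin n → Fin d → Bool) =>
      ∀ k, z (Sum.inl q.1) k = true ∨ z (Sum.inr q.2) k = true)
  refine (pr_mono (negW_nonneg h0 h1) hmono).trans (hU.trans ?_)
  have hq : ∀ q : Fin n × Fin n, pr (negW p) (fun z : Fin n ⊕ Fin n → Fin d → Bool =>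
      ∀ k, z (Sum.inl q.1) k = true ∨ z (Sum.inr q.2) k = true)
      = (1 - (1 - p) ^ 2) ^ d := by
    intro q
    have hne : (Sum.inl q.1 : Fin n ⊕ Fin n) ≠ Sum.inr q.2 := by simp
    have := pr_pair (ι := Fin n ⊕ Fin n) (w := piW (bw p)) (sum_piW (bw_sum p) (ι := Fin d)) hne
      (fun y z => ∀ k, y k = true ∨ z k = true)
    exact this.trans (mu_orth p d)
  simp only [hq]
  rw [Finset.sum_const, Finset.card_univ, Fintype.card_prod, Fintype.card_fin, nsmul_eq_mul]
  apply le_of_eq
  push_cast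
  ring

theorem pos_ov (ω : Fin n × Fin n × (Fin d → Bool)) :
    ∃ i j, ∀ k, posX ω (Sum.inl i) k = true ∨ posX ω (Sum.inr j) k = true := by
  refine ⟨ω.1, ω.2.1, fun k => ?_⟩
  simp only [posX, if_true]
  cases ω.2.2 k <;> simp

/-- Every circuit with few AND gates errs with total weight almost one on the two distributions. -/
theorem wrong_total {p τ : ℝ} {m : ℕ} (P : Par n p τ m) (P0 : ℕ) (l : ℕ) (hD : d + 2 * l ≤ D)
    (C : Circ n D) (η : ℝ)
    (hη1 : (numAnd C : ℝ) * (2 * (1 - τ) ^ P0) + (1 - τ) ^ P0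
      + (n : ℝ) ^ 2 * (1 - (1 - p) ^ 2) ^ d ≤ η)
    (hη2 : (numAnd C : ℝ) * ((4 + (P0 : ℝ) ^ 2) / (n : ℝ) ^ 2) + 2 / (n : ℝ) ^ 2 + (P0 : ℝ) / n
      ≤ η) :
    1 - η ≤ pr (negW p) (fun z : Fin n ⊕ Fin n → Fin d → Bool => wrong l C z)
      + pr posW (fun ω : Fin n × Fin n × (Fin d → Bool) => wrong l C (posX ω)) := by
  classical
  have h1 := circ_dichotomy (d := d) P P0 (C.map (resGate d l))
  rw [numAnd_res] at h1
  have hpos0 : 0 ≤ pr posW (fun ω : Fin n × Fin n × (Fin d → Bool) => wrong l C (posX ω)) :=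
    pr_nonneg posW_nonneg _
  have hneg0 : 0 ≤ pr (negW p) (fun z : Fin n ⊕ Fin n → Fin d → Bool => wrong l C z) :=
    pr_nonneg (negW_nonneg P.hp0 P.hp1) _
  rcases h1 with h1 | h1
  · have h2 : pr (negW p) (fun z : Fin n ⊕ Fin n → Fin d → Bool => ¬ wrong l C z) ≤ η := by
      refine (pr_mono (negW_nonneg P.hp0 P.hp1) (F := fun z =>
        (¬ fv (C.map (resGate d l)) z 0 = true) ∨
        (∃ i j, ∀ k, z (Sum.inl i) k = true ∨ z (Sum.inr j) k = true)) ?_).trans ?_
      · intro z hz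
        unfold wrong at hz
        rw [not_not, accepts_iff, ov_iff l hD] at hz
        by_cases hf : fv (C.map (resGate d l)) z 0 = true
        · exact Or.inr (hz.1 hf)
        · exact Or.inl hf
      · refine (pr_or (negW_nonneg P.hp0 P.hp1) _ _).trans ?_
        have := neg_ov (n := n) (d := d) P.hp0 P.hp1
        linarith
    rw [pr_compl (sum_negW p)] at h2
    linarith
  · have h2 : pr posW (fun ω : Fin n × Fin n × (Fin d → Bool) => ¬ wrong l C (posX ω)) ≤ η := by
      refine (pr_mono posW_nonneg (F := fun ω =>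
        fv (C.map (resGate d l)) (posX ω) 0 = true) ?_).trans (h1.trans hη2)
      intro ω hω
      unfold wrong at hω
      rw [not_not, accepts_iff, ov_iff l hD] at hω
      exact hω.2 (pos_ov ω)
    rw [pr_compl (sum_posW P.hn)] at h2
    linarith

/-- Averaging over a family. -/
theorem avg_family {Ω : Type*} [Fintype Ω] {W : Ω → ℝ} (hW : ∀ x, 0 ≤ W x) (h1 : ∑ x, W x = 1)
    {r : ℕ} (E : Fin r → Ω → Prop) (M : ℝ)
    (hM : ∀ x, (({u | E u x} : Set (Fin r)).ncard : ℝ) ≤ M) :
    ∑ u, pr W (E u) ≤ M := by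
  classical
  unfold pr
  rw [Finset.sum_comm]
  have : ∀ x, ∑ u, W x * (if E u x then (1 : ℝ) else 0) ≤ W x * M := by
    intro x
    rw [← Finset.mul_sum]
    refine mul_le_mul_of_nonneg_left ?_ (hW x)
    refine le_trans (le_of_eq ?_) (hM x)
    rw [Finset.sum_ite, Finset.sum_const_zero, add_zero, Finset.sum_const, nsmul_eq_mul, mul_one]
    rw [Set.ncard_eq_toFinset_card']
    congr 2
    ext u
    simp
  refine (Finset.sum_le_sum (fun x _ => this x)).trans ?_
  rw [← Finset.sum_mul, h1, one_mul]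

/-- A family of circuits with few AND gates errs with probability more than one third on some
instance. -/
theorem family_wrong {p τ : ℝ} {m : ℕ} (P : Par n p τ m) (P0 : ℕ) (l : ℕ) (hl : n ≤ 2 ^ l)
    (hD : d + 2 * l ≤ D) {r : ℕ} (hr : 0 < r) (C : Fin r → Circ n D)
    (hη1 : ∀ u, (numAnd (C u) : ℝ) * (2 * (1 - τ) ^ P0) + (1 - τ) ^ P0
      + (n : ℝ) ^ 2 * (1 - (1 - p) ^ 2) ^ d ≤ 1 / 4)
    (hη2 : ∀ u, (numAnd (C u) : ℝ) * ((4 + (P0 : ℝ) ^ 2) / (n : ℝ) ^ 2) + 2 / (n : ℝ) ^ 2
      + (P0 : ℝ) / n ≤ 1 / 4) :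
    ∃ A B : Fin n → Fin D → Bool, Function.Injective A ∧ Function.Injective B ∧
      r < 3 * ({u | ¬ (accepts (C u) A B ↔ OVyes A B)} : Set (Fin r)).ncard := by
  classical
  by_contra hcon0
  have hcon : ∀ A B : Fin n → Fin D → Bool, Function.Injective A → Function.Injective B →
      3 * ({u | ¬ (accepts (C u) A B ↔ OVyes A B)} : Set (Fin r)).ncard ≤ r := by
    intro A B hA hB
    by_contra h
    exact hcon0 ⟨A, B, hA, hB, not_le.1 h⟩
  have hall : ∀ z : Fin n ⊕ Fin n → Fin d → Bool,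
      (({u | wrong l (C u) z} : Set (Fin r)).ncard : ℝ) ≤ (r : ℝ) / 3 := by
    intro z
    have h := hcon (instA l z) (instB l z) (instA_inj l hl hD z) (instB_inj l hl hD z)
    have h' : ((3 * ({u | wrong l (C u) z} : Set (Fin r)).ncard : ℕ) : ℝ) ≤ (r : ℝ) := by
      exact_mod_cast h
    push_cast at h'
    linarith
  have h1 := avg_family (negW_nonneg (n := n) (d := d) P.hp0 P.hp1) (sum_negW p)
    (fun (u : Fin r) z => wrong l (C u) z) ((r : ℝ) / 3) hall
  have h2 := avg_family (Ω := Fin n × Fin n × (Fin d → Bool)) posW_nonneg (sum_posW P.hn)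
    (fun (u : Fin r) ω => wrong l (C u) (posX ω)) ((r : ℝ) / 3) (fun ω => hall (posX ω))
  have h3 : ∑ u : Fin r, (1 - 1 / 4 : ℝ) ≤ ∑ u : Fin r,
      (pr (negW p) (fun z : Fin n ⊕ Fin n → Fin d → Bool => wrong l (C u) z)
      + pr posW (fun ω : Fin n × Fin n × (Fin d → Bool) => wrong l (C u) (posX ω))) :=
    Finset.sum_le_sum (fun u _ => wrong_total P P0 l hD (C u) (1 / 4) (hη1 u) (hη2 u))
  rw [Finset.sum_add_distrib, Finset.sum_const, Finset.card_univ, Fintype.card_fin,
    nsmul_eq_mul] at h3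
  have hr' : (0 : ℝ) < r := by exact_mod_cast hr
  linarith

end Pool.Agent.H589R2.OV
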